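import Pool.Agent.U152.IN.Bij

/-!
# McKay bijections with degrees congruent up to sign modulo `p`: parity decides

Let `p` be an odd prime. `R` denotes the group of the elements of order a power of `2` of `(ℤ/p)ˣ`; it is
`{1, -1}` if and only if `p ≡ 3` modulo `4`.

Proof. Let `N(c)` be the number of the `χ ∈ Irr_{p'}(G)` with `χ(1)` modulo `p` in the coset `c` of `R`,
a function on the group `Q = (ℤ/p)ˣ / R`, which has odd order, so that every element of `Q` has exactly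
one square root. The characters of `G ≀ C₂` of degree prime to `p` are the induced characters of the
products `θ₁ × θ₂`, `θ₁ ≠ θ₂`, of degree `2 θ₁(1) θ₂(1)`, and the two extensions of `θ × θ`, of degree
`θ(1)²` (`Pool.Agent.Q90.WR`, starting files). So the function `N'` of `G ≀ C₂` is given by
`2 N'(2 c²) = ∑_a N(a) N(a⁻¹ c²) - N(c) + 4 N(√2 c)`, and the same holds for the function of
`N_G(P)` and that of `N_G(P) ≀ C₂`, the normalizer of the Sylow subgroup `P × P`. If the two functions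
for `G` differ by multiples of `2 ^ a`, `a ≥ 1`, then so do the sums over `a` modulo `2 ^ (a + 1)`, and
the term `N(c)` shows that the two functions for `G` differ by multiples of `2 ^ (a + 1)` if and only if
those for `G ≀ C₂` differ by multiples of `2 ^ a`. All this holds also for the characters fixed by a
group of field automorphisms which acts on the characters through elements of odd order; and equivariant
bijections exist if and only if all subgroups have the same numbers of fixed points.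
-/

set_option autoImplicit false

noncomputable section

namespace Pool.Agent.Results.MP_5ecade_al.ParityDecides

open Pool.Agent.Q90.WR (Wr WrN)

/-- `Irr_{p'}(G)`: the characters of the irreducible complex representations of `G` of degree prime
to `p`. -/
def IrrP (p : ℕ) (G : Type) [Group G] : Set (G → ℂ) :=
  {χ | (∃ (V : Type) (_ : AddCommGroup V) (_ : Module ℂ V) (_ : FiniteDimensional ℂ V)
    (ρ : Representation ℂ G V), ρ.IsIrreducible ∧ χ = ρ.character) ∧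
    ∃ n : ℕ, (n : ℂ) = χ 1 ∧ ¬ p ∣ n}

/-- The normalizer `N_G(P)` of a Sylow subgroup `P`. -/
abbrev N {p : ℕ} {G : Type} [Group G] (P : Sylow p G) : Type :=
  Subgroup.normalizer ((P : Subgroup G) : Set G)

/-- Q1 for `G` and `P`: there is a bijection `χ ↦ χ*` from `Irr_{p'}(G)` onto `Irr_{p'}(N_G(P))` with
`χ(1) ≡ ± χ*(1)` modulo `p`. -/
def McKay {p : ℕ} {G : Type} [Group G] (P : Sylow p G) : Prop :=
  ∃ f : IrrP p G ≃ IrrP p (N P), ∀ χ : IrrP p G, ∃ m n : ℤ,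
    (m : ℂ) = (χ : G → ℂ) 1 ∧ (n : ℂ) = (f χ : N P → ℂ) 1 ∧
      (m ≡ n [ZMOD p] ∨ m ≡ -n [ZMOD p])

/-- The number of the `χ ∈ Irr_{p'}(G)` with `χ(1) ≡ ± k` modulo `p`. -/
def num (p : ℕ) (k : ℤ) (G : Type) [Group G] : ℕ :=
  Nat.card {χ : G → ℂ // χ ∈ IrrP p G ∧ ∃ m : ℤ, (m : ℂ) = χ 1 ∧
    (m ≡ k [ZMOD p] ∨ m ≡ -k [ZMOD p])}

/-- There is a bijection `χ ↦ χ*` from `Irr_{p'}(G)` onto `Irr_{p'}(N_G(P))` commuting with all
`σ ∈ Γ` such that `χ(1) = r χ*(1)` modulo `p` for some `r` of order a power of `2` in `(ℤ/p)ˣ`. -/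
def McKay2 {p : ℕ} (Γ : Subgroup (ℂ ≃+* ℂ)) {G : Type} [Group G] (P : Sylow p G) : Prop :=
  ∃ f : IrrP p G ≃ IrrP p (N P),
    (∀ σ ∈ Γ, ∀ χ ψ : IrrP p G, (∀ g, (ψ : G → ℂ) g = σ ((χ : G → ℂ) g)) →
      ∀ g, (f ψ : N P → ℂ) g = σ ((f χ : N P → ℂ) g)) ∧
    ∀ χ : IrrP p G, ∃ (m n : ℕ) (r : (ZMod p)ˣ), (m : ℂ) = (χ : G → ℂ) 1 ∧
      (n : ℂ) = (f χ : N P → ℂ) 1 ∧ (∃ k : ℕ, r ^ 2 ^ k = 1) ∧ (m : ZMod p) = r * n

/-- The number of the `χ ∈ Irr_{p'}(G)` fixed by all `σ ∈ Γ` for which `χ(1) = r c` modulo `p` for some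
`r` of order a power of `2` in `(ℤ/p)ˣ`. -/
def num2 {p : ℕ} (Γ : Subgroup (ℂ ≃+* ℂ)) (c : (ZMod p)ˣ) (G : Type) [Group G] : ℕ :=
  Nat.card {χ : G → ℂ // χ ∈ IrrP p G ∧ (∀ σ ∈ Γ, ∀ g, σ (χ g) = χ g) ∧
    ∃ (m : ℕ) (r : (ZMod p)ˣ), (m : ℂ) = χ 1 ∧ (∃ k : ℕ, r ^ 2 ^ k = 1) ∧ (m : ZMod p) = r * c}

/-- Every `σ ∈ Γ` permutes `Irr_{p'}(G)` with odd order. -/
def OddAct (p : ℕ) (Γ : Subgroup (ℂ ≃+* ℂ)) (G : Type) [Group G] : Prop :=
  ∀ σ ∈ Γ, ∃ m : ℕ, Odd m ∧ ∀ χ ∈ IrrP p G, ∀ g, (σ ^ m) (χ g) = χ g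

section bridge

open Pool.Agent.U152.IN Pool.Agent.Q259.BW Pool.Agent.H254R3.IN

variable {p : ℕ} [hp : Fact p.Prime]

theorem class_iff {H : Type} [Group H] {χ : H → ℂ} (c : (ZMod p)ˣ) :
    (∃ (m : ℕ) (r : (ZMod p)ˣ), (m : ℂ) = χ 1 ∧ (∃ k : ℕ, r ^ 2 ^ k = 1) ∧
      (m : ZMod p) = r * c) ↔ InCl (R2 p) (c : (ZMod p)ˣ ⧸ R2 p) χ := by
  constructor
  · rintro ⟨m, r, h1, h2, h3⟩
    refine ⟨m, r * c, h1, by rw [h3, Units.val_mul], ?_⟩
    rw [QuotientGroup.eq, mul_inv, mul_comm r⁻¹, mul_assoc, mul_comm, mul_assoc, mul_inv_cancel,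
      mul_one]
    exact (R2 p).inv_mem h2
  · rintro ⟨m, u, h1, h2, h3⟩
    refine ⟨m, u * c⁻¹, h1, ?_, by rw [h2, Units.val_mul, Units.inv_mul_cancel_right]⟩
    have h4 := h3.symm
    rw [QuotientGroup.eq, mul_comm] at h4
    exact h4

theorem num2_eq (Γ : Subgroup (ℂ ≃+* ℂ)) (c : (ZMod p)ˣ) (H : Type) [Group H] :
    (num2 Γ c H : ℤ) = nf (R2 p) (Γ : Set (ℂ ≃+* ℂ)) H (c : (ZMod p)ˣ ⧸ R2 p) := by
  unfold num2 nf nu
  congr 1
  refine Nat.card_congr (Equiv.subtypeEquivRight fun χ => ?_)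
  rw [class_iff]
  constructor
  · rintro ⟨h1, h2, h3⟩
    exact ⟨⟨h1, h2⟩, h3⟩
  · rintro ⟨⟨h1, h2⟩, h3⟩
    exact ⟨h1, h2, h3⟩

theorem mckay2_iff (Γ : Subgroup (ℂ ≃+* ℂ)) {G : Type} [Group G] (P : Sylow p G) :
    McKay2 Γ P ↔ DBij (R2 p) (Γ : Set (ℂ ≃+* ℂ)) (XP p G) (XP p (NS P)) := by
  constructor
  · rintro ⟨f, h1, h2⟩
    refine ⟨f, fun σ hσ χ => ?_, h2⟩
    have h3 := stable_XP (Γ : Set (ℂ ≃+* ℂ)) σ hσ _ χ.2
    exact ⟨h3, funext (h1 σ hσ χ ⟨_, h3⟩ fun _ => rfl)⟩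
  · rintro ⟨f, h1, h2⟩
    refine ⟨f, fun σ hσ χ ψ h g => ?_, h2⟩
    obtain ⟨h3, h4⟩ := h1 σ hσ χ
    have h5 : ψ = ⟨fun g => σ ((χ : G → ℂ) g), h3⟩ := Subtype.ext (funext h)
    rw [h5]
    exact congrFun h4 g

theorem odd_iff (Γ : Subgroup (ℂ ≃+* ℂ)) (H : Type) [Group H] :
    OddAct p Γ H ↔ Odd' p (Γ : Set (ℂ ≃+* ℂ)) H := Iff.rfl

theorem mod_iff {a b : ℕ} : a ≡ b [MOD 2] ↔ (2 : ℤ) ∣ (a : ℤ) - b := by
  rw [Nat.ModEq.comm, Nat.modEq_iff_dvd]
  rfl

theorem R2_three (h : p % 4 = 3) (r : (ZMod p)ˣ) : (∃ k : ℕ, r ^ 2 ^ k = 1) ↔ r = 1 ∨ r = -1 := by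
  constructor
  · rintro ⟨k, hk⟩
    have h1 : orderOf r ∣ 2 ^ k := orderOf_dvd_of_pow_eq_one hk
    obtain ⟨i, -, hi⟩ := (Nat.dvd_prime_pow Nat.prime_two).mp h1
    have h2 : orderOf r ∣ p - 1 := by
      rw [← ZMod.card_units p, ← Nat.card_eq_fintype_card]
      exact orderOf_dvd_natCard r
    have h3 : i ≤ 1 := by
      by_contra hc
      have h4 : 2 ^ 2 ∣ orderOf r := by
        rw [hi]
        exact pow_dvd_pow 2 (by omega)
      have h5 : 4 ∣ p - 1 := (by norm_num : (4 : ℕ) = 2 ^ 2) ▸ h4.trans h2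
      omega
    have h4 : r ^ 2 = 1 := by
      have h5 : orderOf r ∣ 2 := by
        rw [hi]
        exact (pow_dvd_pow 2 h3).trans (by norm_num)
      exact orderOf_dvd_iff_pow_eq_one.mp h5
    have h5 : (r : ZMod p) * r = 1 := by
      rw [← Units.val_mul, ← pow_two, h4, Units.val_one]
    rcases mul_self_eq_one_iff.mp h5 with h6 | h6
    · exact Or.inl (Units.ext h6)
    · refine Or.inr (Units.ext ?_)
      rw [h6, Units.val_neg, Units.val_one]
  · rintro (rfl | rfl)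
    · exact ⟨0, one_pow _⟩
    · exact ⟨1, by rw [pow_one, neg_one_sq]⟩

theorem int_of_nat {H : Type} [Group H] {χ : H → ℂ} {n : ℕ} (hn : (n : ℂ) = χ 1) {m : ℤ}
    (hm : (m : ℂ) = χ 1) : m = n := by
  have h : (m : ℂ) = ((n : ℤ) : ℂ) := by rw [hm, ← hn, Int.cast_natCast]
  exact Int.cast_injective h

theorem mckay_iff (h : p % 4 = 3) {G : Type} [Group G] (P : Sylow p G) :
    McKay P ↔ McKay2 ⊥ P := by
  constructor
  · rintro ⟨f, hf⟩
    refine ⟨f, ?_, fun χ => ?_⟩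
    · intro σ hσ χ ψ h g
      rw [Subgroup.mem_bot] at hσ
      subst hσ
      have h5 : ψ = χ := Subtype.ext (funext h)
      rw [h5]
      rfl
    · obtain ⟨m', n', h1, h2, h3⟩ := hf χ
      obtain ⟨m, hm, hm'⟩ := χ.2.2
      obtain ⟨n, hn, hn'⟩ := (f χ).2.2
      have e1 := int_of_nat hm h1
      have e2 := int_of_nat hn h2
      rw [e1, e2] at h3
      rcases h3 with h3 | h3
      · refine ⟨m, n, 1, hm, hn, ⟨0, one_pow _⟩, ?_⟩
        have h4 := (ZMod.intCast_eq_intCast_iff _ _ _).mpr h3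
        push_cast at h4
        rw [h4, Units.val_one, one_mul]
      · refine ⟨m, n, -1, hm, hn, ⟨1, by rw [pow_one, neg_one_sq]⟩, ?_⟩
        have h4 := (ZMod.intCast_eq_intCast_iff _ _ _).mpr h3
        push_cast at h4
        rw [h4, Units.val_neg, Units.val_one, neg_one_mul]
  · rintro ⟨f, -, hf⟩
    refine ⟨f, fun χ => ?_⟩
    obtain ⟨m, n, r, h1, h2, h3, h4⟩ := hf χ
    refine ⟨m, n, by rw [Int.cast_natCast, h1], by rw [Int.cast_natCast, h2], ?_⟩
    rcases (R2_three h r).mp h3 with rfl | rfl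
    · left
      rw [← ZMod.intCast_eq_intCast_iff]
      push_cast
      rw [h4, Units.val_one, one_mul]
    · right
      rw [← ZMod.intCast_eq_intCast_iff]
      push_cast
      rw [h4, Units.val_neg, Units.val_one, neg_one_mul]

theorem num_eq (h : p % 4 = 3) (c : (ZMod p)ˣ) {k : ℤ} (hk : (k : ZMod p) = c) (H : Type)
    [Group H] : num p k H = num2 ⊥ c H := by
  unfold num num2
  refine Nat.card_congr (Equiv.subtypeEquivRight fun χ => ?_)
  refine and_congr_right fun hχ => ?_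
  obtain ⟨m, hm, hm'⟩ := hχ.2
  constructor
  · rintro ⟨m', h1, h2⟩
    refine ⟨fun σ hσ g => ?_, ?_⟩
    · rw [Subgroup.mem_bot] at hσ
      rw [hσ]
      rfl
    · rw [int_of_nat hm h1] at h2
      rcases h2 with h2 | h2
      · refine ⟨m, 1, hm, ⟨0, one_pow _⟩, ?_⟩
        have h4 := (ZMod.intCast_eq_intCast_iff _ _ _).mpr h2
        rw [Int.cast_natCast, hk] at h4
        rw [h4, Units.val_one, one_mul]
      · refine ⟨m, -1, hm, ⟨1, by rw [pow_one, neg_one_sq]⟩, ?_⟩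
        have h4 := (ZMod.intCast_eq_intCast_iff _ _ _).mpr h2
        rw [Int.cast_natCast, Int.cast_neg, hk] at h4
        rw [h4, Units.val_neg, Units.val_one, neg_one_mul]
  · rintro ⟨-, m', r, h1, h2, h3⟩
    refine ⟨m', by rw [Int.cast_natCast, h1], ?_⟩
    rcases (R2_three h r).mp h2 with rfl | rfl
    · left
      rw [← ZMod.intCast_eq_intCast_iff, Int.cast_natCast, hk, h3, Units.val_one, one_mul]
    · right
      rw [← ZMod.intCast_eq_intCast_iff, Int.cast_natCast, Int.cast_neg, hk, h3, Units.val_neg,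
        Units.val_one, neg_one_mul]

theorem num_zero {k : ℤ} (hk : (k : ZMod p) = 0) (H : Type) [Group H] : num p k H = 0 := by
  unfold num
  rw [Nat.card_eq_zero]
  left
  refine ⟨?_⟩
  rintro ⟨χ, hχ, m', h1, h2⟩
  obtain ⟨m, hm, hm'⟩ := hχ.2
  rw [int_of_nat hm h1] at h2
  apply hm'
  rw [← ZMod.natCast_eq_zero_iff]
  rcases h2 with h2 | h2
  · have h4 := (ZMod.intCast_eq_intCast_iff _ _ _).mpr h2
    rwa [Int.cast_natCast, hk] at h4
  · have h4 := (ZMod.intCast_eq_intCast_iff _ _ _).mpr h2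
    rwa [Int.cast_natCast, Int.cast_neg, hk, neg_zero] at h4

theorem odd_bot (H : Type) [Group H] : OddAct p ⊥ H := by
  intro σ hσ
  rw [Subgroup.mem_bot] at hσ
  subst hσ
  exact ⟨1, odd_one, fun χ _ g => by rw [one_pow]; rfl⟩

theorem quot_forall {X : (ZMod p)ˣ ⧸ R2 p → Prop} : (∀ q, X q) ↔ ∀ c : (ZMod p)ˣ, X c := by
  constructor
  · exact fun h c => h c
  · intro h q
    obtain ⟨c, rfl⟩ := QuotientGroup.mk_surjective q
    exact h c

end bridge

/-- **McKay bijections with degrees congruent up to sign: parity decides.** Let `p` be an odd prime and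
`R` the group of the elements of order a power of `2` of `(ℤ/p)ˣ` (`R = {1, -1}` for `p ≡ 3` modulo `4`).

(1) If `p ≡ 3` modulo `4`, then Q1 holds for the prime `p` and all finite groups if and only if, for all
finite groups `G`, all Sylow `p`-subgroups `P` and all integers `k`, the numbers of the characters in
`Irr_{p'}(G)` and in `Irr_{p'}(N_G(P))` with degrees congruent to `± k` modulo `p` have the same parity.

(2) For all odd `p`, for every class `C` of finite groups closed under `G ↦ G ≀ C₂` and every set `H` of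
field automorphisms: the following are equivalent. (a) For all `G ∈ C`, all Sylow `p`-subgroups `P` and all
groups `Γ ⊆ H` whose elements permute `Irr_{p'}(G)` and `Irr_{p'}(N_G(P))` with odd order there is a
`Γ`-equivariant bijection from `Irr_{p'}(G)` onto `Irr_{p'}(N_G(P))` with degrees congruent modulo `p` up
to factors in `R`. (b) For all these `G`, `P`, `Γ` and all `c ∈ (ℤ/p)ˣ` the numbers of the `Γ`-fixed
characters in `Irr_{p'}(G)` and in `Irr_{p'}(N_G(P))` with degrees in `c R` modulo `p` have the same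
parity.

(3) For one group: let `P` be a Sylow `p`-subgroup of the finite group `G` and `Γ` as in (2). Then
`2 ^ a` divides the differences of the numbers of the `Γ`-fixed characters for all `c` if and only if the
parities agree for the first `a` iterated wreath products `WrN j G`, `j < a`; and there is a
`Γ`-equivariant bijection with degrees congruent up to factors in `R` if and only if for all subgroups `Δ`
of `Γ` and all `j` with `2 ^ j ≤ |G|` the parities of the numbers of `Δ`-fixed characters agree for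
`WrN j G`. -/
theorem result (p : ℕ) [Fact p.Prime] (hp2 : p ≠ 2) :
    -- (1)
    (p % 4 = 3 → ((∀ (G : Type) [Group G] [Finite G] (P : Sylow p G), McKay P) ↔
      ∀ (G : Type) [Group G] [Finite G] (P : Sylow p G) (k : ℤ),
        num p k G ≡ num p k (N P) [MOD 2])) ∧
    -- (2)
    (∀ C : (G : Type) → Group G → Prop,
      (∀ (G : Type) [i : Group G], C G i → Finite G ∧ C (Wr G) inferInstance) →
      ∀ H : Set (ℂ ≃+* ℂ),
      ((∀ (G : Type) [i : Group G], C G i → ∀ (P : Sylow p G) (Γ : Subgroup (ℂ ≃+* ℂ)),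
        (Γ : Set (ℂ ≃+* ℂ)) ⊆ H → OddAct p Γ G → OddAct p Γ (N P) → McKay2 Γ P) ↔
      ∀ (G : Type) [i : Group G], C G i → ∀ (P : Sylow p G) (Γ : Subgroup (ℂ ≃+* ℂ)),
        (Γ : Set (ℂ ≃+* ℂ)) ⊆ H → OddAct p Γ G → OddAct p Γ (N P) →
        ∀ c : (ZMod p)ˣ, num2 Γ c G ≡ num2 Γ c (N P) [MOD 2])) ∧
    -- (3)
    ∀ (G : Type) [Group G] [Finite G] (P : Sylow p G) (Γ : Subgroup (ℂ ≃+* ℂ)), OddAct p Γ G →
      OddAct p Γ (N P) →
      (∀ a : ℕ, (∀ c : (ZMod p)ˣ, (2 : ℤ) ^ a ∣ (num2 Γ c G : ℤ) - num2 Γ c (N P)) ↔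
        ∀ j < a, ∀ (Q : Sylow p (WrN j G)) (c : (ZMod p)ˣ),
          num2 Γ c (WrN j G) ≡ num2 Γ c (N Q) [MOD 2]) ∧
      (McKay2 Γ P ↔ ∀ Δ ≤ Γ, ∀ j, 2 ^ j ≤ Nat.card G → ∀ (Q : Sylow p (WrN j G)) (c : (ZMod p)ˣ),
        num2 Δ c (WrN j G) ≡ num2 Δ c (N Q) [MOD 2]) := by
  open Pool.Agent.U152.IN in
  have par : ∀ (Γ : Subgroup (ℂ ≃+* ℂ)) (K L : Type) [Group K] [Group L],
      (∀ c : (ZMod p)ˣ, num2 Γ c K ≡ num2 Γ c L [MOD 2]) ↔
      ∀ c, (2 : ℤ) ∣ nf (R2 p) (Γ : Set (ℂ ≃+* ℂ)) K c - nf (R2 p) (Γ : Set (ℂ ≃+* ℂ)) L c := by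
    intro Γ K L _ _
    rw [quot_forall]
    refine forall_congr' fun c => ?_
    rw [mod_iff, num2_eq, num2_eq]
  refine ⟨fun h3 => ?_, fun C hC H => ?_, fun G _ _ P Γ o1 o2 => ⟨fun a => ?_, ?_⟩⟩
  · have key := Pool.Agent.U152.IN.all_groups (p := p) hp2 Pool.Agent.U152.IN.odd_quot
      (fun G _ => Finite G) (fun G _ (h : Finite G) => ⟨h, inferInstanceAs (Finite (Wr G))⟩)
      ({1} : Set (ℂ ≃+* ℂ))
    have hb : ∀ Γ : Subgroup (ℂ ≃+* ℂ), (Γ : Set (ℂ ≃+* ℂ)) ⊆ {1} → Γ = ⊥ := fun Γ h => by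
      rw [Subgroup.eq_bot_iff_forall]
      exact fun x hx => h hx
    constructor
    · intro h G _ hG P k
      rcases eq_or_ne (k : ZMod p) 0 with h0 | h0
      · rw [num_zero h0, num_zero h0]
      · rw [num_eq h3 (Units.mk0 _ h0) rfl, num_eq h3 (Units.mk0 _ h0) rfl, mod_iff, num2_eq,
          num2_eq]
        refine key.mp ?_ G hG P ⊥ (by simp) (odd_bot G) (odd_bot (N P)) _
        intro K _ hK Q Γ hΓ _ _
        rw [hb Γ hΓ, ← mckay2_iff, ← mckay_iff h3]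
        exact @h K _ hK Q
    · intro h G _ hG P
      rw [mckay_iff h3, mckay2_iff]
      refine key.mpr ?_ G hG P ⊥ (by simp) (odd_bot G) (odd_bot (N P))
      intro K _ hK Q Γ hΓ _ _
      rw [hb Γ hΓ, ← par]
      intro c
      have hk : (((c : ZMod p).val : ℤ) : ZMod p) = c := by
        rw [Int.cast_natCast, ZMod.natCast_zmod_val]
      rw [← num_eq h3 c hk, ← num_eq h3 c hk]
      exact @h K _ hK Q _
  · have key := Pool.Agent.U152.IN.all_groups (p := p) hp2 Pool.Agent.U152.IN.odd_quot C hC H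
    constructor
    · intro h G _ hG P Γ hΓ o1 o2
      rw [par]
      exact key.mp (fun K _ hK Q Δ hΔ q1 q2 => (mckay2_iff Δ Q).mp (h K hK Q Δ hΔ q1 q2))
        G hG P Γ hΓ o1 o2
    · intro h G _ hG P Γ hΓ o1 o2
      rw [mckay2_iff]
      refine key.mpr (fun K _ hK Q Δ hΔ q1 q2 => ?_) G hG P Γ hΓ o1 o2
      exact (par Δ K (N Q)).mp (h K hK Q Δ hΔ q1 q2)
  · constructor
    · intro h j hj Q
      rw [par]
      intro c
      have h1 : ∀ c, (2 : ℤ) ^ (j + 1) ∣ Pool.Agent.U152.IN.nf (Pool.Agent.U152.IN.R2 p)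
          (Γ : Set (ℂ ≃+* ℂ)) G c - Pool.Agent.U152.IN.nf (Pool.Agent.U152.IN.R2 p)
          (Γ : Set (ℂ ≃+* ℂ)) (N P) c := by
        rw [quot_forall]
        intro c
        rw [← num2_eq, ← num2_eq]
        exact (pow_dvd_pow 2 (by omega)).trans (h c)
      have h2 := Pool.Agent.U152.IN.levels_of_dvd hp2 Pool.Agent.U152.IN.odd_quot j 1 G P o1 o2 h1
        Q c
      rwa [pow_one] at h2
    · intro h
      rcases a with _ | a
      · intro c
        rw [pow_zero]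
        exact one_dvd _
      · have h1 := Pool.Agent.U152.IN.dvd_of_levels hp2 Pool.Agent.U152.IN.odd_quot a G P o1 o2
          (fun j hj Q => (par Γ _ _).mp (h j (by omega) Q))
        intro c
        rw [num2_eq, num2_eq]
        exact h1 _
  · rw [mckay2_iff, Pool.Agent.U152.IN.one_group hp2 Pool.Agent.U152.IN.odd_quot G P Γ o1 o2]
    refine forall₂_congr fun Δ hΔ => forall₂_congr fun j hj => forall_congr' fun Q => ?_
    exact (par Δ _ _).symm

end Pool.Agent.Results.MP_5ecade_al.ParityDecides
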