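import Pool.Agent.U610.IN.Asy

/-!
# McKay bijections with degrees congruent up to sign modulo `p`: weak forms decide

For a prime `p` and a unit `b` modulo `p` let `num p G b` be the number of irreducible characters of
the finite group `G` of degree `≡ b` or `≡ -b` modulo `p`; Q1 for `G` says that
`num p G b = num p (N_G(P)) b` for all `b`. Let `X` be a class of groups which contains `G × H` for
all `G` in `X` and all metacyclic groups `H` of order prime to `p`. We show that one inequality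
`num p G b ≤ num p (N_G(P)) b + o(|G|)`, for ONE residue class `b`, gives all the inequalities
`num p G c ≤ num p (N_G(P)) c` for the groups `G` in `X`, and that together with
`|Irr_{p'}(N_G(P))| ≤ |Irr_{p'}(G)| + o(|G|)` (for instance if the McKay equality holds) it gives Q1
for all groups in `X`; so if Q1 fails for one group in `X` then the numbers for any given residue
class `b` differ by more than a constant times `|G|` for infinitely many orders `|G|`.

If `q ≠ p` is a prime which does not divide `(p - 1) / 2` and `X` is also closed under regular wreath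
products with a group of order `q`, then Q1 holds for all groups in `X` if and only if
`num p G b ≡ num p (N_G(P)) b` modulo `q` for one `b` and all sufficiently large groups in `X` (this
part is the main theorem of the starting library file `Pool/Agent/K3h3/MK/Main.lean`). For one group
`G` Q1 is equivalent to the congruences modulo `q` for the `j`-th iterated wreath products,
`q ^ j ≤ |G|`, of `G` with the group of order `q`.

Proof of the first part: for a large prime `Q = 1 + a k` the group `H = C_Q ⋊ C_a` has `a` characters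
of degree one and `k` of degree `a`, so the difference of the two numbers for `G × H` and the class of
`b` is `a D(b) + k D(b / a)`, where `D` is the difference for `G`, and `|G × H| ≤ 2 a² k |G|`.
-/

set_option autoImplicit false
set_option linter.unusedSectionVars false
set_option linter.style.haveILetI false

open scoped BigOperators Classical

noncomputable section

namespace Pool.Agent.Results.MP_5ecade_al.WeakFormsDecide

/-- `χ` is the character of an irreducible complex representation of `G`. -/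
def IsIrr {G : Type} [Group G] (χ : G → ℂ) : Prop :=
  ∃ (V : Type) (_ : AddCommGroup V) (_ : Module ℂ V) (_ : FiniteDimensional ℂ V)
    (ρ : Representation ℂ G V), ρ.IsIrreducible ∧ χ = ρ.character

/-- The set `Irr_{p'}(G)` of the irreducible characters of `G` of degree prime to `p`. -/
def IrrP (p : ℕ) (G : Type) [Group G] : Type :=
  {χ : G → ℂ // IsIrr χ ∧ ∃ d : ℕ, χ 1 = (d : ℂ) ∧ ¬ p ∣ d}

/-- The normalizer of a Sylow subgroup. -/
abbrev N {p : ℕ} {G : Type} [Group G] (P : Sylow p G) : Subgroup G :=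
  Subgroup.normalizer ((P : Subgroup G) : Set G)

/-- The bijection of Q1 for `G` and `P`: from `Irr_{p'}(G)` onto `Irr_{p'}(N_G(P))` with degrees
congruent up to sign modulo `p`. -/
def HasBijection {p : ℕ} {G : Type} [Group G] (P : Sylow p G) : Prop :=
  ∃ e : IrrP p G ≃ IrrP p (N P), ∀ (χ : IrrP p G) (m n : ℕ), χ.1 1 = (m : ℂ) →
    (e χ).1 1 = (n : ℂ) → (m : ℤ) ≡ n [ZMOD p] ∨ (m : ℤ) ≡ -n [ZMOD p]

/-- The number of irreducible characters of `G` of degree congruent to `b` or `-b` modulo `p`. -/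
def num (p : ℕ) (G : Type) [Group G] (b : (ZMod p)ˣ) : ℕ :=
  Nat.card {χ : G → ℂ // IsIrr χ ∧ ∃ m : ℕ, χ 1 = (m : ℂ) ∧
    ((m : ZMod p) = b ∨ (m : ZMod p) = -b)}

/-- A class of groups, given by a predicate. -/
abbrev Cls : Type 1 := (G : Type) → [Group G] → Prop

/-- A number attached to every finite group with a Sylow `p`-subgroup. -/
abbrev Fn (p : ℕ) : Type 1 := (G : Type) → [Group G] → [Finite G] → Sylow p G → ℕ

/-- `f ≤ g + o(|G|)` for the finite groups `G` in the class `X`. -/
def AsyLE (p : ℕ) (X : Cls) (f g : Fn p) : Prop :=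
  ∀ ε : ℝ, 0 < ε → ∃ C : ℕ, ∀ (G : Type) [Group G] [Finite G], X G → C ≤ Nat.card G →
    ∀ P : Sylow p G, (f G P : ℝ) ≤ g G P + ε * Nat.card G

/-- `num p G b` -/
def atG (p : ℕ) (b : (ZMod p)ˣ) : Fn p := fun G _ _ _ => num p G b

/-- `num p (N_G(P)) b` -/
def atN (p : ℕ) (b : (ZMod p)ˣ) : Fn p := fun _ _ _ P => num p (N P) b

/-- `|Irr_{p'}(G)|` -/
def allG (p : ℕ) : Fn p := fun G _ _ _ => Nat.card (IrrP p G)

/-- `|Irr_{p'}(N_G(P))|` -/
def allN (p : ℕ) : Fn p := fun _ _ _ P => Nat.card (IrrP p (N P))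

/-- Q1 for the prime `p` and all finite groups in the class `X`. -/
def Q1 (p : ℕ) (X : Cls) : Prop :=
  ∀ (G : Type) [Group G] [Finite G], X G → ∀ P : Sylow p G, HasBijection P

/-- `f ≤ g` for all finite groups in the class `X`. -/
def AllLE (p : ℕ) (X : Cls) (f g : Fn p) : Prop :=
  ∀ (G : Type) [Group G] [Finite G], X G → ∀ P : Sylow p G, f G P ≤ g G P

/-- `H` has a cyclic normal subgroup with a cyclic factor group. -/
def IsMetacyclic (H : Type) [Group H] : Prop :=
  ∃ N : Subgroup H, ∃ _ : N.Normal, IsCyclic N ∧ IsCyclic (H ⧸ N)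

/-- The class `X` contains `G × H` for all finite `G` in `X` and all metacyclic groups `H` of order
prime to `p`. -/
def ClosedProd (p : ℕ) (X : Cls) : Prop :=
  ∀ (G H : Type) [Group G] [Finite G] [Group H] [Finite H], X G → IsMetacyclic H →
    ¬ p ∣ Nat.card H → X (G × H)

/-- The action of `S` on `G ^ S` by permutation of the factors. -/
def shift (G S : Type) [Group G] [Group S] : S →* MulAut (S → G) :=
  Pool.Agent.K3h3.MK.rAct G S

theorem shift_apply (G S : Type) [Group G] [Group S] (s : S) (g : S → G) (i : S) :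
    shift G S s g i = g (s⁻¹ * i) := rfl

/-- The regular wreath product of `G` with `S`. -/
abbrev Wreath (G S : Type) [Group G] [Group S] : Type := (S → G) ⋊[shift G S] S

section

open Pool.Agent.K3h3.MK Pool.Agent.K3h3.KB Pool.Agent.U610.IN

variable {p : ℕ} [hp : Fact p.Prime] {G : Type} [Group G] [Finite G]

theorem deg_iff {χ : G → ℂ} (h : IsIrr χ) {d : ℕ} : χ 1 = (d : ℂ) ↔ d = ndeg χ := by
  constructor
  · intro h1
    exact (ndeg_eq h1.symm).symm
  · rintro rfl
    exact (ndeg_cast h).symm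

theorem cong_iff (m n : ℕ) : ((m : ℤ) ≡ n [ZMOD p] ∨ (m : ℤ) ≡ -n [ZMOD p]) ↔
    ((m : ZMod p)) ^ 2 = (n : ZMod p) ^ 2 := by
  rw [sq_eq_sq_iff_eq_or_eq_neg, ← ZMod.intCast_eq_intCast_iff, ← ZMod.intCast_eq_intCast_iff]
  simp

theorem deg_prime_iff {χ : G → ℂ} (h1 : IsIrr χ) : (∃ d : ℕ, χ 1 = (d : ℂ) ∧ ¬ p ∣ d) ↔
    (ndeg χ : ZMod p) ≠ 0 := by
  constructor
  · rintro ⟨d, h2, h3⟩
    rw [deg_iff h1] at h2
    rw [← h2]
    exact fun h => h3 ((ZMod.natCast_eq_zero_iff _ _).mp h)
  · intro h2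
    exact ⟨ndeg χ, (deg_iff h1).mpr rfl, fun h => h2 ((ZMod.natCast_eq_zero_iff _ _).mpr h)⟩

/-- the two descriptions of `Irr_{p'}(G)` -/
def eqv (p : ℕ) [Fact p.Prime] (G : Type) [Group G] [Finite G] : IrrP p G ≃ X p G :=
  Equiv.subtypeEquivRight fun χ => by
    constructor
    · rintro ⟨h1, h2⟩
      exact ⟨h1, (deg_prime_iff h1).mp h2⟩
    · rintro ⟨h1, h2⟩
      exact ⟨h1, (deg_prime_iff h1).mpr h2⟩

theorem kap_eq_iff {H : Type} [Group H] [Finite H] (χ : X p G) (ψ : X p H) :
    kap p ψ = kap p χ ↔ ((ndeg χ.1 : ZMod p)) ^ 2 = (ndeg ψ.1 : ZMod p) ^ 2 := by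
  unfold kap
  rw [Units.ext_iff]
  simp only [Units.val_pow_eq_pow_val, Units.val_mk0]
  exact eq_comm

theorem hasBijection_iff (P : Sylow p G) : HasBijection P ↔ dl p P = 0 := by
  unfold dl
  rw [sub_eq_zero]
  constructor
  · rintro ⟨e, he⟩
    refine wt_of_bij p (((eqv p G).symm.trans e).trans (eqv p (NN P))) fun χ => ?_
    rw [kap_eq_iff]
    have h1 := he ((eqv p G).symm χ) (ndeg χ.1) (ndeg (e ((eqv p G).symm χ)).1)
      ((deg_iff χ.2.1).mpr rfl) ((deg_iff (e ((eqv p G).symm χ)).2.1).mpr rfl)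
    rw [cong_iff] at h1
    exact h1
  · intro h
    obtain ⟨e, he⟩ := exists_bij p h
    refine ⟨((eqv p G).trans e).trans (eqv p (NN P)).symm, fun χ m n h1 h2 => ?_⟩
    have h3 := he (eqv p G χ)
    rw [kap_eq_iff] at h3
    rw [deg_iff χ.2.1] at h1
    rw [deg_iff (((eqv p G).trans e).trans (eqv p (NN P)).symm χ).2.1] at h2
    rw [cong_iff, h1, h2]
    exact h3

theorem num_eq (G : Type) [Group G] [Finite G] (b : (ZMod p)ˣ) :
    (num p G b : ℤ) = (wt (cl p) G).coeff (b ^ 2) := by
  rw [coeff_wt]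
  congr 1
  refine Nat.card_congr ⟨fun χ => ⟨⟨χ.1, χ.2.1, ?_⟩, ?_⟩, fun χ => ⟨χ.1.1, χ.1.2.1,
    ndeg χ.1.1, (deg_iff χ.1.2.1).mpr rfl, ?_⟩, fun _ => rfl, fun _ => rfl⟩
  · obtain ⟨m, h1, h2⟩ := χ.2.2
    rw [deg_iff χ.2.1] at h1
    rw [← h1]
    rcases h2 with h2 | h2
    · rw [h2]; exact b.ne_zero
    · rw [h2]; exact neg_ne_zero.mpr b.ne_zero
  · obtain ⟨m, h1, h2⟩ := χ.2.2
    rw [deg_iff χ.2.1] at h1
    unfold kap
    rw [Units.ext_iff]
    simp only [Units.val_pow_eq_pow_val, Units.val_mk0]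
    rw [← h1]
    exact sq_eq_sq_iff_eq_or_eq_neg.mpr h2
  · have h1 := χ.2
    unfold kap at h1
    rw [Units.ext_iff] at h1
    simp only [Units.val_pow_eq_pow_val, Units.val_mk0] at h1
    exact sq_eq_sq_iff_eq_or_eq_neg.mp h1

theorem coeff_eq (P : Sylow p G) (b : (ZMod p)ˣ) :
    (dl p P).coeff (b ^ 2) = (num p G b : ℤ) - num p (N P) b := by
  rw [num_eq, num_eq]
  rfl

theorem tot_eq (P : Sylow p G) :
    tot p (dl p P) = (Nat.card (IrrP p G) : ℤ) - Nat.card (IrrP p (N P)) := by
  unfold dl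
  rw [tot_sub, tot_wt, tot_wt, Nat.card_congr (eqv p G), Nat.card_congr (eqv p (N P))]

theorem asy_iff (p : ℕ) [Fact p.Prime] {X : Cls} {f g : Fn p} (s : ℤ)
    (D : (G : Type) → [Group G] → [Finite G] → Sylow p G → ℤ)
    (h : ∀ (G : Type) [Group G] [Finite G] (P : Sylow p G), s * D G P = (f G P : ℤ) - g G P) :
    AsyLE p X f g ↔ ∀ ε : ℝ, 0 < ε → ∃ C : ℕ, ∀ (G : Type) [Group G] [Finite G], X G →
      C ≤ Nat.card G → ∀ P : Sylow p G, ((s * D G P : ℤ) : ℝ) ≤ ε * Nat.card G := by
  unfold AsyLE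
  refine forall_congr' fun ε => forall_congr' fun _ => exists_congr fun C => forall_congr' fun G =>
    forall_congr' fun _ => forall_congr' fun _ => forall_congr' fun _ => forall_congr' fun _ =>
    forall_congr' fun P => ?_
  rw [h G P]
  push_cast
  rw [sub_le_iff_le_add, add_comm]

theorem asy_of_le {X : Cls} {f g : Fn p} (h : AllLE p X f g) : AsyLE p X f g := by
  intro ε hε
  refine ⟨0, fun G _ _ hG _ P => ?_⟩
  have h1 : (f G P : ℝ) ≤ g G P := by exact_mod_cast h G hG P
  have h2 : 0 ≤ ε * (Nat.card G : ℝ) := by positivity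
  linarith

theorem coeff_le {X : Cls} (hX : ClosedProd p X) (b : (ZMod p)ˣ)
    (h : AsyLE p X (atG p b) (atN p b)) (G : Type) [Group G] [Finite G] (hG : X G) (P : Sylow p G)
    (v : (ZMod p)ˣ) : 1 * (dl p P).coeff v ≤ 0 :=
  le_of_asy p 1 b X hX ((asy_iff p 1 (fun G _ _ P => (dl p P).coeff (b ^ 2)) (by
    intro G _ _ P
    rw [one_mul, coeff_eq]
    rfl)).mp h) G hG P v

theorem coeff_ge {X : Cls} (hX : ClosedProd p X) (b : (ZMod p)ˣ)
    (h : AsyLE p X (atN p b) (atG p b)) (G : Type) [Group G] [Finite G] (hG : X G) (P : Sylow p G)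
    (v : (ZMod p)ˣ) : (-1) * (dl p P).coeff v ≤ 0 :=
  le_of_asy p (-1) b X hX ((asy_iff p (-1) (fun G _ _ P => (dl p P).coeff (b ^ 2)) (by
    intro G _ _ P
    rw [coeff_eq]
    change -1 * ((num p G b : ℤ) - num p (N P) b) = (num p (N P) b : ℤ) - num p G b
    ring)).mp h) G hG P v

theorem le_all {X : Cls} (hX : ClosedProd p X) (b : (ZMod p)ˣ)
    (h : AsyLE p X (atG p b) (atN p b)) (c : (ZMod p)ˣ) : AllLE p X (atG p c) (atN p c) := by
  intro G _ _ hG P
  have h1 := coeff_le hX b h G hG P (c ^ 2)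
  rw [coeff_eq] at h1
  change num p G c ≤ num p (N P) c
  omega

theorem ge_all {X : Cls} (hX : ClosedProd p X) (b : (ZMod p)ˣ)
    (h : AsyLE p X (atN p b) (atG p b)) (c : (ZMod p)ˣ) : AllLE p X (atN p c) (atG p c) := by
  intro G _ _ hG P
  have h1 := coeff_ge hX b h G hG P (c ^ 2)
  rw [coeff_eq] at h1
  change num p (N P) c ≤ num p G c
  omega

theorem le_of_Q1 {X : Cls} (h : Q1 p X) (b : (ZMod p)ˣ) :
    AllLE p X (atG p b) (atN p b) ∧ AllLE p X (atN p b) (atG p b) ∧
      AllLE p X (allG p) (allN p) ∧ AllLE p X (allN p) (allG p) := by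
  have h0 : ∀ (G : Type) [Group G] [Finite G], X G → ∀ P : Sylow p G,
      num p G b = num p (N P) b ∧ Nat.card (IrrP p G) = Nat.card (IrrP p (N P)) := by
    intro G _ _ hG P
    have h1 := (hasBijection_iff P).mp (h G hG P)
    have h2 := coeff_eq P b
    have h3 := tot_eq P
    rw [h1] at h2 h3
    have h4 : (0 : RR p).coeff (b ^ 2) = 0 := rfl
    have h5 : tot p (0 : RR p) = 0 := by
      unfold tot
      exact Finset.sum_eq_zero fun v _ => rfl
    rw [h4] at h2
    rw [h5] at h3
    omega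
  exact ⟨fun G _ _ hG P => (h0 G hG P).1.le, fun G _ _ hG P => (h0 G hG P).1.ge,
    fun G _ _ hG P => (h0 G hG P).2.le, fun G _ _ hG P => (h0 G hG P).2.ge⟩

theorem dvd_iff (P : Sylow p G) (q : ℕ) : ((q ^ 1 : ℕ) : RR p) ∣ dl p P ↔
    ∀ c : (ZMod p)ˣ, num p G c ≡ num p (N P) c [MOD q] := by
  rw [pow_one]
  constructor
  · intro h c
    have h1 := coeff_of_dvd p h (c ^ 2)
    rw [coeff_eq] at h1
    exact ((Nat.modEq_iff_dvd).mpr (by
      rw [← neg_sub, dvd_neg]
      exact h1))
  · intro h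
    apply dvd_of_coeff
    intro v
    by_cases hv : ∃ u, u ^ 2 = v
    · obtain ⟨u, rfl⟩ := hv
      rw [coeff_eq, ← neg_sub, dvd_neg]
      exact (Nat.modEq_iff_dvd).mp (h u)
    · push Not at hv
      rw [dl_nonsq p P hv]
      exact dvd_zero _

end

open Pool.Agent.K3h3.MK Pool.Agent.K3h3.KB Pool.Agent.U610.IN in
/-- **Weak forms of the McKay bijections with degrees congruent up to sign modulo `p` decide.**
(1) Let the class `X` contain `G × H` for all `G` in `X` and all metacyclic groups `H` of order prime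
to `p`, and let `b` be a unit modulo `p`. If `num p G b ≤ num p (N_G(P)) b + o(|G|)` for the groups in
`X` then `num p G c ≤ num p (N_G(P)) c` for all units `c` and all groups in `X`; the same with the
inequalities reversed. The following are equivalent: Q1 holds for all groups in `X`;
`num p G b ≤ num p (N_G(P)) b + o(|G|)` and `|Irr_{p'}(N_G(P))| ≤ |Irr_{p'}(G)| + o(|G|)`; the same with
the inequalities reversed; `num p G b = num p (N_G(P)) b + o(|G|)`.
(2) Let `q ≠ p` be a prime which does not divide `(p - 1) / 2` and let `S` be a group of order `q`. If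
`X` is as above and also closed under regular wreath products with `S`, then Q1 holds for all groups
in `X` if and only if `num p G b ≡ num p (N_G(P)) b` modulo `q` for all groups in `X` of order at least
some constant. Let `W 0, W 1, …` be finite groups such that `W (j + 1)` is isomorphic to the
regular wreath product of `W j` with `S`. Then Q1 holds for `W 0` if and only if
`num p (W j) c ≡ num p (N(Q)) c` modulo `q` for all units `c`, all `j` with `q ^ j ≤ |W 0|` and all Sylow
`p`-subgroups `Q` of `W j`. -/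
theorem result (p : ℕ) [Fact p.Prime] :
    (∀ X : Cls, ClosedProd p X → ∀ b : (ZMod p)ˣ,
      (AsyLE p X (atG p b) (atN p b) → ∀ c : (ZMod p)ˣ, AllLE p X (atG p c) (atN p c)) ∧
      (AsyLE p X (atN p b) (atG p b) → ∀ c : (ZMod p)ˣ, AllLE p X (atN p c) (atG p c)) ∧
      (Q1 p X ↔ AsyLE p X (atG p b) (atN p b) ∧ AsyLE p X (allN p) (allG p)) ∧
      (Q1 p X ↔ AsyLE p X (atN p b) (atG p b) ∧ AsyLE p X (allG p) (allN p)) ∧
      (Q1 p X ↔ AsyLE p X (atG p b) (atN p b) ∧ AsyLE p X (atN p b) (atG p b))) ∧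
    ∀ q : ℕ, q.Prime → q ≠ p → ¬ q ∣ (p - 1) / 2 → ∀ (S : Type) [CommGroup S] [Finite S],
      Nat.card S = q →
      (∀ X : Cls, ClosedProd p X → (∀ (G : Type) [Group G] [Finite G], X G → X (Wreath G S)) →
        ∀ b : (ZMod p)ˣ, (Q1 p X ↔ ∃ C : ℕ, ∀ (G : Type) [Group G] [Finite G], X G →
          C ≤ Nat.card G → ∀ P : Sylow p G, num p G b ≡ num p (N P) b [MOD q])) ∧
      ∀ (W : ℕ → Type) [∀ j, Group (W j)] [∀ j, Finite (W j)],
        (∀ j, Nonempty (W (j + 1) ≃* Wreath (W j) S)) → ∀ P : Sylow p (W 0),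
          (HasBijection P ↔ ∀ j, q ^ j ≤ Nat.card (W 0) → ∀ (Q : Sylow p (W j)) (c : (ZMod p)ˣ),
            num p (W j) c ≡ num p (N Q) c [MOD q]) := by
  refine ⟨fun X hX b => ⟨le_all hX b, ge_all hX b, ?_, ?_, ?_⟩, fun q hq hqp h2 S _ _ hS =>
    ⟨fun X hX hW b => ?_, fun W _ _ e P => ?_⟩⟩
  · constructor
    · intro h
      exact ⟨asy_of_le (le_of_Q1 h b).1, asy_of_le (le_of_Q1 h b).2.2.2⟩
    · rintro ⟨h1, h2⟩ G _ _ hG P
      rw [hasBijection_iff]
      refine eq_zero_of_tot p 1 one_ne_zero (coeff_le hX b h1 G hG P) ?_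
      have h3 := tot_of_asy p (-1) X hX ((asy_iff p (-1) (fun G _ _ P => tot p (dl p P)) (by
        intro G _ _ P
        rw [tot_eq]
        change -1 * ((Nat.card (IrrP p G) : ℤ) - Nat.card (IrrP p (N P))) =
          (Nat.card (IrrP p (N P)) : ℤ) - Nat.card (IrrP p G)
        ring)).mp h2) G hG P
      linarith
  · constructor
    · intro h
      exact ⟨asy_of_le (le_of_Q1 h b).2.1, asy_of_le (le_of_Q1 h b).2.2.1⟩
    · rintro ⟨h1, h2⟩ G _ _ hG P
      rw [hasBijection_iff]
      refine eq_zero_of_tot p (-1) (by norm_num) (coeff_ge hX b h1 G hG P) ?_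
      have h3 := tot_of_asy p 1 X hX ((asy_iff p 1 (fun G _ _ P => tot p (dl p P)) (by
        intro G _ _ P
        rw [tot_eq, one_mul]
        rfl)).mp h2) G hG P
      linarith
  · constructor
    · intro h
      exact ⟨asy_of_le (le_of_Q1 h b).1, asy_of_le (le_of_Q1 h b).2.1⟩
    · rintro ⟨h1, h2⟩ G _ _ hG P
      rw [hasBijection_iff]
      ext v
      change (dl p P).coeff v = 0
      have h3 := coeff_le hX b h1 G hG P v
      have h4 := coeff_ge hX b h2 G hG P v
      omega
  · constructor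
    · intro h
      refine ⟨0, fun G _ _ hG _ P => ?_⟩
      have h1 := le_of_Q1 h b
      have h3 : num p G b = num p (N P) b := le_antisymm (h1.1 G hG P) (h1.2.1 G hG P)
      rw [h3]
    · rintro ⟨C, hC⟩ G _ _ hG P
      rw [hasBijection_iff]
      unfold dl
      rw [sub_eq_zero]
      refine main p hq hqp h2 b C hS X hX hW (fun G _ _ hG hCG P => ?_) G hG P
      have h3 := hC G hG hCG P
      change (q : ℤ) ∣ (dl p P).coeff (b ^ 2)
      rw [coeff_eq, ← neg_sub, dvd_neg]
      exact (Nat.modEq_iff_dvd).mp h3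
  · rw [hasBijection_iff, one_group p hq hqp h2 hS W e P]
    exact forall_congr' fun j => forall_congr' fun _ => forall_congr' fun Q => dvd_iff Q q

end Pool.Agent.Results.MP_5ecade_al.WeakFormsDecide
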